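import Pool.Agent.Q26.KF.Main

/-!
# The conjecture C for a variety and for one member of a family

Let `k₀` be an algebraically closed field (e.g. the algebraic closure of a finite field), let `X` be the
geometric generic fibre of a smooth projective family over a variety over `k₀`, let `X₀` be one fibre
and let `Y` be a smooth projective variety over `k₀` which is generically finite over a
compactification of the fibre square of the family (which exists by the theorem of de Jong). By the
theorem of Katz and Messing the conjecture C holds for `X₀` if `k₀` is the closure of a finite field.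

1. The conjecture C holds for `X` if and only if it holds for `X₀` and the cycles which give the
Kunneth components of `X₀` are numerically equivalent to restrictions of cycles on `Y`; in other
words, if and only if they are orthogonal to all cycles on `X₀ × X₀` whose images in `Y` are
numerically trivial. This is a question about intersection numbers of cycles over `k₀`.
2. This is the case if numerical and homological equivalence agree for the cycles of dimension
`dim X₀` on `Y` which lie on the fibre `X₀ × X₀`.
3. So in characteristic `p` the conjecture D over the algebraic closure of the prime field implies the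
conjecture C over all fields.

Proof. If the restriction `r` of a cycle on `Y` to `X₀ × X₀` is numerically equivalent to the Kunneth
component `π`, then all the traces of the powers of `r` on the spaces `H^j(X₀)` are those of `π`, since
these traces are intersection numbers by the conjecture C for `X₀`. So `π` is a polynomial in `r`. The
cycle on `Y` gives a cycle on `X × X` with the same operator, and the same polynomial gives the
Kunneth component of `X`.
-/

open CategoryTheory AlgebraicGeometry

universe u v u₀ v₀

namespace Pool.Agent.Results.MP_4ca46c_ag.FromOneFibre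

open Pool.Agent.H914 Pool.Agent.Q26.KF

variable {k : Type u} [Field k] {𝒱 : VarClass k} {ops : CycleOps 𝒱}
  {k₀ : Type u₀} [Field k₀] {𝒱₀ : VarClass k₀} {ops₀ : CycleOps 𝒱₀}

/-- **The conjecture C in families.** -/
theorem result (W : WeilCohomology.{u, v} ops) (W₀ : WeilCohomology.{u₀, v₀} ops₀) :
    (∀ (X : 𝒱.Obj) (X₀ Y : 𝒱₀.Obj) (F : Family W W₀ X X₀ Y),
      [KunnethStd W X, KunnethStd W₀ X₀ ∧ Extends F, KunnethStd W₀ X₀ ∧ Orthogonal F].TFAE ∧
      (HomEqNumOnFibre F → (KunnethStd W X ↔ KunnethStd W₀ X₀)) ∧
      (HomEqNum W₀ Y → HomEqNumOnFibre F)) ∧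
    ((∀ X : 𝒱.Obj, ∃ X₀ Y : 𝒱₀.Obj, Nonempty (Family W W₀ X X₀ Y)) →
      (∀ X₀ : 𝒱₀.Obj, KunnethStd W₀ X₀) → (∀ Y : 𝒱₀.Obj, HomEqNum W₀ Y) →
      ∀ X : 𝒱.Obj, KunnethStd W X) := by
  have h1 : ∀ (X : 𝒱.Obj) (X₀ Y : 𝒱₀.Obj) (F : Family W W₀ X X₀ Y),
      [KunnethStd W X, KunnethStd W₀ X₀ ∧ Extends F, KunnethStd W₀ X₀ ∧ Orthogonal F].TFAE := by
    intro X X₀ Y F
    tfae_have 1 → 2 := fun h => ⟨kunneth_fibre F h, extends_of_kunneth F h⟩
    tfae_have 2 → 3 := fun h => ⟨h.1, (extends_iff_orthogonal F).1 h.2⟩
    tfae_have 3 → 1 := fun h => of_extends F h.1 ((extends_iff_orthogonal F).2 h.2)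
    tfae_finish
  have h2 : ∀ (X : 𝒱.Obj) (X₀ Y : 𝒱₀.Obj) (F : Family W W₀ X X₀ Y), HomEqNumOnFibre F →
      (KunnethStd W X ↔ KunnethStd W₀ X₀) := fun X X₀ Y F hD =>
    ⟨fun h => kunneth_fibre F h, fun h =>
      of_extends F h ((extends_iff_orthogonal F).2 (orthogonal_of_homEqNum F hD))⟩
  refine ⟨fun X X₀ Y F => ⟨h1 X X₀ Y F, h2 X X₀ Y F, onFibre_of_homEqNum F⟩, ?_⟩
  intro hF hC hD X
  obtain ⟨X₀, Y, ⟨F⟩⟩ := hF X
  exact (h2 X X₀ Y F (onFibre_of_homEqNum F (hD Y))).2 (hC X₀)

end Pool.Agent.Results.MP_4ca46c_ag.FromOneFibre
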