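import Pool.Agent.Q8.KC.Main

/-!
# One Künneth component in one theory gives rational projectors for all powers and all theories

Let `𝒲` be a set of Weil cohomology theories on a class of smooth projective varieties over a field,
closed under products, and `X` a variety of the class, of dimension `n`, for which the cycles on
`X × X` have the same rational traces on each `H^i(X)` in all theories of `𝒲` (for the `ℓ`-adic
theories, `ℓ ≠ p`, this is the theorem of Katz and Messing and the specialisation of cycles). Let `W`
be ONE theory in `𝒲`, `D` a divisor on `X` whose top self-intersection number is not zero in `W`,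
`m ≥ 4` and `3n ≤ j ≤ (2m - 3) n` with `H^j(X^m)` not zero. Then the ONE component `π_j(X^m)` (for
example the middle component of `X^4`) is a combination of classes of cycles with coefficients in the
coefficient field of `W` if and only if for each `r` and each `i` ONE cycle with rational coefficients
on `X^r × X^r` induces the projector onto `H^i(X^r)` for ALL theories in `𝒲`.
-/

open CategoryTheory AlgebraicGeometry

universe u v

namespace Pool.Agent.Results.MP_4ca46c_ag.OneComponentTheories

open Pool.Agent.H914 Pool.Agent.H914.VarClass Pool.Agent.H914.VarClass.Obj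
open Pool.Agent.Y133.Half (pw)
open Pool.Agent.TH133.PW (SameTracesAll OneProjectorForAll)
open Pool.Agent.Q8.KC

variable {k : Type u} [Field k] {𝒱 : VarClass k} {ops : CycleOps 𝒱}

/-- **One component in the span of the cycles for one theory.** -/
theorem result (𝒲 : Set (WeilCohomology.{u, v} ops)) (X : 𝒱.Obj) (h𝒲 : SameTracesAll 𝒲 X)
    (W : WeilCohomology.{u, v} ops) (hW : W ∈ 𝒲) (D : X.Cycles) (hD : X.IsCyc 1 D)
    (h0 : W.tr X (W.cl X D ^ X.dim) ≠ 0) (m : ℕ) (hm : 3 ≤ m) (j : ℕ) (h1 : 3 * X.dim ≤ j)
    (h2 : j + 3 * X.dim ≤ 2 * (pw X m).dim) (hj : W.gr (pw X m) j ≠ ⊥) :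
    ComponentInSpan W (pw X m) j ↔ ∀ r i, OneProjectorForAll 𝒲 (pw X r) i :=
  theory_iff hD h0 hW h𝒲 hm h1 h2 hj

end Pool.Agent.Results.MP_4ca46c_ag.OneComponentTheories
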