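import Pool.Agent.Q56.PC.Main

/-!
# One piece of one tensor power decides the Künneth projectors which occur in it

`C` is a `ℚ`-linear rigid symmetric monoidal category with a symmetric monoidal additive functor `H`
to finite dimensional super vector spaces over a field `K`, for example the category of homological
motives with a Weil cohomology theory. Let `D` be a finite decomposition of `H(M)` into subspaces
`V_i`, each of them even or odd, for example the decomposition into the `H^i(X)` for the motive `M` of
`X`. Let `e` be an idempotent of the image of the group algebra of `S_n` in the endomorphisms of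
`M ^ n`, `m` a type, that is, a multiplicity `m i` for every `i`, and `D.piece n m e` the projector of
`H(M ^ n)` onto the tensors in the image of `e` with exactly `m i` factors in `V_i` for all `i`.

Suppose that this projector is not zero and algebraic with coefficients in a subfield `F` of `K` (for
`F = ℚ`: the image of an endomorphism of `M ^ n`). Then for every rational number `q` the projector
onto the sum of the `V_i` with `m i = q (± dim V_i)`, `+` for even and `-` for odd `V_i`, is algebraic
with coefficients in `F`. If the ratios `m i / (± dim V_i)` with `m i ≠ 0` occur only once, then the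
piece is algebraic if and only if all projectors onto the `V_i` with `m i ≠ 0` are.
-/

set_option autoImplicit false

open CategoryTheory Limits MonoidalCategory

namespace Pool.Agent.Results.MP_4ca46c_ag.OneTensorType

open Pool.Agent.Y112.SR Pool.Agent.Y112.KD Pool.Agent.Y112.SC Q56.PC

universe v u w

/-- **One nonzero algebraic piece of one tensor power gives algebraic projectors.** -/
theorem result {C : Type u} [Category.{v} C] [Preadditive C] [Linear ℚ C] [MonoidalCategory C]
    [MonoidalPreadditive C] [MonoidalLinear ℚ C] [SymmetricCategory C] [RightRigidCategory C]
    {K : Type w} [Field K] {R : SuperRealisation C K} {M : C} {ι : Type} [Fintype ι]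
    [DecidableEq ι] (D : Decomposition R M ι) (F : Subfield K) (n : ℕ) (m : ι → ℕ)
    (e : End (tp M n)) (he : e ∈ Young M n) (h0 : D.piece n m e ≠ 0) :
    (D.piece n m e ∈ FAlg R F (tp M n) →
      ∀ q : ℚ, (∑ i with D.ratio m i = q, D.proj i) ∈ FAlg R F M) ∧
    ((∀ i j, m i ≠ 0 → D.proj j ≠ 0 → D.ratio m i = D.ratio m j → i = j) →
      (D.piece n m e ∈ FAlg R F (tp M n) ↔ ∀ i, m i ≠ 0 → D.proj i ∈ FAlg R F M)) :=
  ⟨fun h q => D.level_of_piece he h0 h q, fun hm => D.support_iff hm he h0⟩

end Pool.Agent.Results.MP_4ca46c_ag.OneTensorType
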